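import Pool.Agent.W2helper75.FD.Stm3
import Pool.Agent.W2helper66.FD.Tail

/-!
# Project FD, part 3, piece TLC
-/

set_option autoImplicit false

open MeasureTheory ProbabilityTheory Filter Topology
open scoped ENNReal NNReal

namespace Pool.Agent.W2helper52.FDT

open Pool.Agent.W2helper75.FD Pool.Agent.W2helper66.FD

/-! ## The tree -/

section tree

variable {bb : List Bool → ℂ} {ν B : ℂ}

theorem tree_le (hν : 4 ≤ ‖ν‖)
    (hbb : ∀ a u, bb (a :: u) = bb u + ν ^ (u.length + 1) * (cond a B 0)) :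
    ∀ u u' : List Bool, u.length = u'.length →
      ‖bb u - bb u'‖ ≤ ‖ν‖ ^ (u.length + 1) / 3 * ‖B‖ := by
  intro u
  induction u with
  | nil =>
    intro u' hl
    have : u' = [] := List.length_eq_zero_iff.1 hl.symm
    subst this
    rw [sub_self, norm_zero]
    positivity
  | cons a u ih =>
    intro u' hl
    cases u' with
    | nil => simp at hl
    | cons a' u' =>
      have hl' : u.length = u'.length := by simpa using hl
      have h1 := ih u' hl'
      rw [hbb, hbb, ← hl', List.length_cons]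
      have h2 : bb u + ν ^ (u.length + 1) * (cond a B 0) - (bb u' + ν ^ (u.length + 1) * (cond a' B 0))
          = (bb u - bb u') + ν ^ (u.length + 1) * (cond a B 0 - cond a' B 0) := by ring
      have h3 : ‖(cond a B 0 - cond a' B 0 : ℂ)‖ ≤ ‖B‖ := by
        cases a <;> cases a' <;> simp
      rw [h2]
      have h4 : ‖ν ^ (u.length + 1) * (cond a B 0 - cond a' B 0)‖ ≤ ‖ν‖ ^ (u.length + 1) * ‖B‖ := by
        rw [norm_mul, norm_pow]
        exact mul_le_mul_of_nonneg_left h3 (by positivity)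
      have h5 : 4 * ‖ν‖ ^ (u.length + 1) ≤ ‖ν‖ ^ (u.length + 1 + 1) := by
        rw [pow_succ (‖ν‖) (u.length + 1), mul_comm 4]
        exact mul_le_mul_of_nonneg_left hν (by positivity)
      have h6 : 4 * ‖ν‖ ^ (u.length + 1) * ‖B‖ ≤ ‖ν‖ ^ (u.length + 1 + 1) * ‖B‖ :=
        mul_le_mul_of_nonneg_right h5 (norm_nonneg _)
      calc ‖(bb u - bb u') + ν ^ (u.length + 1) * (cond a B 0 - cond a' B 0)‖
          ≤ ‖bb u - bb u'‖ + ‖ν ^ (u.length + 1) * (cond a B 0 - cond a' B 0)‖ := norm_add_le _ _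
        _ ≤ ‖ν‖ ^ (u.length + 1) / 3 * ‖B‖ + ‖ν‖ ^ (u.length + 1) * ‖B‖ := add_le_add h1 h4
        _ ≤ ‖ν‖ ^ (u.length + 1 + 1) / 3 * ‖B‖ := by linarith

theorem tree_sep (hν : 4 ≤ ‖ν‖) {R : ℝ} (hR : 0 < R) (hB : R ≤ ‖B‖)
    (hbb : ∀ a u, bb (a :: u) = bb u + ν ^ (u.length + 1) * (cond a B 0)) :
    ∀ u u' : List Bool, u.length = u'.length → u ≠ u' → 2 * R < ‖bb u - bb u'‖ := by
  intro u
  induction u with
  | nil =>
    intro u' hl hne
    exact absurd (List.length_eq_zero_iff.1 hl.symm).symm hne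
  | cons a u ih =>
    intro u' hl hne
    cases u' with
    | nil => simp at hl
    | cons a' u' =>
      have hl' : u.length = u'.length := by simpa using hl
      rw [hbb, hbb, ← hl']
      have h2 : bb u + ν ^ (u.length + 1) * (cond a B 0) - (bb u' + ν ^ (u.length + 1) * (cond a' B 0))
          = ν ^ (u.length + 1) * (cond a B 0 - cond a' B 0) - (bb u' - bb u) := by ring
      by_cases haa : a = a'
      · subst haa
        have hne' : u ≠ u' := fun h => hne (by rw [h])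
        have h3 := ih u' hl' hne'
        rw [h2, sub_self, mul_zero, zero_sub, norm_neg, norm_sub_rev]
        exact h3
      · have h3 : ‖(cond a B 0 - cond a' B 0 : ℂ)‖ = ‖B‖ := by
          cases a <;> cases a' <;> simp_all
        have h4 := tree_le hν hbb u u' hl'
        have h5 : ‖ν ^ (u.length + 1) * (cond a B 0 - cond a' B 0)‖ = ‖ν‖ ^ (u.length + 1) * ‖B‖ := by
          rw [norm_mul, norm_pow, h3]
        have h6 : (4 : ℝ) ≤ ‖ν‖ ^ (u.length + 1) := by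
          calc (4 : ℝ) ≤ ‖ν‖ := hν
            _ = ‖ν‖ ^ 1 := (pow_one _).symm
            _ ≤ ‖ν‖ ^ (u.length + 1) := pow_le_pow_right₀ (by linarith) (by omega)
        have h7 : 4 * ‖B‖ ≤ ‖ν‖ ^ (u.length + 1) * ‖B‖ :=
          mul_le_mul_of_nonneg_right h6 (norm_nonneg _)
        rw [h2]
        have h8 := norm_sub_norm_le (ν ^ (u.length + 1) * (cond a B 0 - cond a' B 0)) (bb u' - bb u)
        rw [h5, norm_sub_rev (bb u') (bb u)] at h8
        have h9 : ‖ν‖ ^ (u.length + 1) / 3 * ‖B‖ = (‖ν‖ ^ (u.length + 1) * ‖B‖) / 3 := by ring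
        rw [h9] at h4
        linarith

end tree

/-! ## Heights and displacements -/

section alg

variable {Γ : Type} [Group Γ] {H : Subgroup Γ} {h : Γ → ℤ} {β : Γ → ℂ} {μ : ℂ} {t : Γ}

theorem h_one (hC : CDat H h β μ t) : h 1 = 0 := by
  have := hC.h_mul 1 H.one_mem 1 H.one_mem
  rw [mul_one] at this
  omega

theorem β_one (hC : CDat H h β μ t) : β 1 = 0 := by
  have := hC.β_mul 1 H.one_mem 1 H.one_mem
  rw [mul_one, h_one hC, zpow_zero, one_mul] at this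
  simpa using this

theorem h_inv (hC : CDat H h β μ t) {x : Γ} (hx : x ∈ H) : h x⁻¹ = - h x := by
  have := hC.h_mul x hx x⁻¹ (H.inv_mem hx)
  rw [mul_inv_cancel, h_one hC] at this
  omega

theorem β_inv (hC : CDat H h β μ t) {x : Γ} (hx : x ∈ H) :
    β x⁻¹ = - (μ ^ (- h x) * β x) := by
  have h1 := hC.β_mul x⁻¹ (H.inv_mem hx) x hx
  rw [inv_mul_cancel, β_one hC, h_inv hC hx] at h1
  linear_combination -h1

theorem pow_dat (hC : CDat H h β μ t) (k : ℕ) : t ^ k ∈ H ∧ h (t ^ k) = k ∧ β (t ^ k) = 0 := by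
  induction k with
  | zero =>
    refine ⟨by rw [pow_zero]; exact H.one_mem, ?_, ?_⟩
    · rw [pow_zero, h_one hC]; rfl
    · rw [pow_zero, β_one hC]
  | succ k ih =>
    obtain ⟨a1, a2, a3⟩ := ih
    refine ⟨by rw [pow_succ]; exact H.mul_mem a1 hC.t_mem, ?_, ?_⟩
    · rw [pow_succ, hC.h_mul _ a1 _ hC.t_mem, a2, hC.ht]
      push_cast
      ring
    · rw [pow_succ, hC.β_mul _ a1 _ hC.t_mem, a3, hC.βt, mul_zero, add_zero]

theorem ipow_dat (hC : CDat H h β μ t) (k : ℕ) :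
    (t ^ k)⁻¹ ∈ H ∧ h (t ^ k)⁻¹ = -k ∧ β (t ^ k)⁻¹ = 0 := by
  obtain ⟨a1, a2, a3⟩ := pow_dat hC k
  refine ⟨H.inv_mem a1, ?_, ?_⟩
  · rw [h_inv hC a1, a2]
  · rw [β_inv hC a1, a3, mul_zero, neg_zero]

/-- the kernel of the action -/
def N0 (hC : CDat H h β μ t) : Subgroup Γ where
  carrier := {x | x ∈ H ∧ h x = 0 ∧ β x = 0}
  mul_mem' := by
    rintro x y ⟨a1, a2, a3⟩ ⟨b1, b2, b3⟩
    refine ⟨H.mul_mem a1 b1, ?_, ?_⟩
    · rw [hC.h_mul x a1 y b1, a2, b2, add_zero]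
    · rw [hC.β_mul x a1 y b1, a3, b3, mul_zero, add_zero]
  one_mem' := ⟨H.one_mem, h_one hC, β_one hC⟩
  inv_mem' := by
    rintro x ⟨a1, a2, a3⟩
    exact ⟨H.inv_mem a1, by rw [h_inv hC a1, a2, neg_zero],
      by rw [β_inv hC a1, a3, mul_zero, neg_zero]⟩

theorem mem_N0 (hC : CDat H h β μ t) {x : Γ} : x ∈ N0 hC ↔ x ∈ H ∧ h x = 0 ∧ β x = 0 := Iff.rfl

theorem N0_iff (hC : CDat H h β μ t) {x y : Γ} (hx : x ∈ H) (hy : y ∈ H) :
    y * x⁻¹ ∈ N0 hC ↔ h x = h y ∧ β x = β y := by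
  have e1 : h (y * x⁻¹) = h y - h x := by
    rw [hC.h_mul y hy _ (H.inv_mem hx), h_inv hC hx]
    ring
  have e2 : β (y * x⁻¹) = β y - μ ^ (h y - h x) * β x := by
    rw [hC.β_mul y hy _ (H.inv_mem hx), β_inv hC hx, sub_eq_add_neg (h y), zpow_add₀ hC.μ0]
    ring
  rw [mem_N0, e1, e2]
  constructor
  · rintro ⟨-, a2, a3⟩
    rw [a2, zpow_zero, one_mul] at a3
    exact ⟨by omega, (sub_eq_zero.1 a3).symm⟩
  · rintro ⟨a1, a2⟩
    refine ⟨H.mul_mem hy (H.inv_mem hx), by omega, ?_⟩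
    rw [a1, sub_self, zpow_zero, one_mul, a2, sub_self]

end alg

theorem pos_finite {Γ : Type} [Group Γ] {S : Finset Γ} (k : ℕ) :
    (Set.range fun c : ℕ → S => pos c k).Finite := by
  induction k with
  | zero =>
    refine (Set.finite_singleton (1 : Γ)).subset ?_
    rintro _ ⟨c, rfl⟩
    rfl
  | succ k ih =>
    refine (Set.Finite.image2 (fun (g : Γ) (s : S) => g * (s : Γ)) ih Set.finite_univ).subset ?_
    rintro _ ⟨c, rfl⟩
    exact ⟨pos c k, ⟨c, rfl⟩, c k, Set.mem_univ _, rfl⟩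

theorem tlc (h1 : P_TRN3) (h2 : P_QQ) (h3 : P_DBL) : P_TLC := by
  classical
  intro Γ _ S _ _ _ hS hgen H _ h β μ t hC R
  obtain ⟨R1, hR1, hRR⟩ : ∃ R1 : ℝ, 0 < R1 ∧ R ≤ R1 / 2 := by
    refine ⟨2 * max R 1, ?_, ?_⟩
    · have := le_max_right R 1
      linarith
    · have := le_max_left R 1
      linarith
  obtain ⟨m, lam, hlam, hspan⟩ := hC.fg
  obtain ⟨x0, hx0, hh0, hβ0⟩ := hC.ne
  have hμn : 0 < ‖μ‖ := norm_pos_iff.2 hC.μ0
  -- the exponents
  obtain ⟨q, hq⟩ : ∃ q : ℕ, ‖μ‖ ^ q < 1 / 4 :=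
    exists_pow_lt_of_lt_one (by norm_num) hC.μ1
  obtain ⟨j, hj⟩ : ∃ j : ℕ, ‖μ‖ ^ j < ‖β x0‖ / R1 :=
    exists_pow_lt_of_lt_one (div_pos (norm_pos_iff.2 hβ0) hR1) hC.μ1
  obtain ⟨ν, hν⟩ : ∃ ν : ℂ, ν = (μ ^ q)⁻¹ := ⟨_, rfl⟩
  have hν4 : 4 ≤ ‖ν‖ := by
    rw [hν, norm_inv, norm_pow]
    rw [le_inv_comm₀ (by norm_num) (pow_pos hμn q)]
    have : (4 : ℝ)⁻¹ = 1 / 4 := by norm_num
    rw [this]
    exact hq.le
  obtain ⟨x1, hx1d⟩ : ∃ x1 : Γ, x1 = (t ^ j)⁻¹ * (x0 * t ^ j) := ⟨_, rfl⟩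
  obtain ⟨p1, p2, p3⟩ := pow_dat hC j
  obtain ⟨i1, i2, i3⟩ := ipow_dat hC j
  have hm : x0 * t ^ j ∈ H := H.mul_mem hx0 p1
  have hx1 : x1 ∈ H := by
    rw [hx1d]
    exact H.mul_mem i1 hm
  have hh1 : h x1 = 0 := by
    rw [hx1d, hC.h_mul _ i1 _ hm, hC.h_mul _ hx0 _ p1, i2, p2, hh0]
    ring
  have hβ1 : β x1 = μ ^ (-(j : ℤ)) * β x0 := by
    rw [hx1d, hC.β_mul _ i1 _ hm, hC.β_mul _ hx0 _ p1, i2, i3, p3, hh0]
    ring
  have hB : R1 ≤ ‖β x1‖ := by
    rw [hβ1, norm_mul, zpow_neg, norm_inv, zpow_natCast, norm_pow]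
    rw [lt_div_iff₀ hR1] at hj
    rw [inv_mul_eq_div, le_div_iff₀ (pow_pos hμn j), mul_comm]
    exact hj.le
  obtain ⟨q1, q2, q3⟩ := ipow_dat hC q
  -- the coset walk
  let mx : Quotient (QuotientGroup.rightRel (N0 hC)) → S →
      Quotient (QuotientGroup.rightRel (N0 hC)) :=
    fun q s => Quotient.map' (fun g => g * (s : Γ)) (by
      intro x y hxy
      rw [QuotientGroup.rightRel_apply] at hxy ⊢
      have : y * (s : Γ) * (x * (s : Γ))⁻¹ = y * x⁻¹ := by group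
      rw [this]
      exact hxy) q
  let cl : Γ → Quotient (QuotientGroup.rightRel (N0 hC)) := fun g => Quotient.mk'' g
  have hmx : ∀ g (s : S), mx (cl g) s = cl (g * s) := fun g s => rfl
  have hcl : ∀ x y, cl x = cl y ↔ y * x⁻¹ ∈ N0 hC := by
    intro x y
    simp only [cl]
    rw [Quotient.eq'']
    exact QuotientGroup.rightRel_apply
  have hcl' : ∀ x ∈ H, ∀ y ∈ H, (cl x = cl y ↔ h x = h y ∧ β x = β y) := by
    intro x hx y hy
    rw [hcl, N0_iff hC hx hy]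
  have hsurj : ∀ q, ∃ g, cl g = q := fun q => Quotient.exists_rep q
  let inv : S → S := fun s => ⟨(s : Γ)⁻¹, hS _ s.2⟩
  have hfold : ∀ (l : List S) (g : Γ), l.foldl mx (cl g) =
      cl (g * (l.map (fun s : S => (s : Γ))).prod) := by
    intro l
    induction l with
    | nil => intro g; simp
    | cons s l ih =>
      intro g
      rw [List.foldl_cons, hmx, ih, List.map_cons, List.prod_cons, mul_assoc]
  obtain ⟨w0, hw0⟩ := exists_word S hS hgen (t ^ q)⁻¹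
  obtain ⟨w1, hw1⟩ := exists_word S hS hgen ((t ^ q)⁻¹ * x1)
  let w : Bool → List S := fun a => cond a w1 w0
  let be : Bool → Γ := fun a => cond a x1 1
  have hw : ∀ a, ((w a).map (fun s : S => (s : Γ))).prod = (t ^ q)⁻¹ * be a := by
    intro a
    cases a
    · change (w0.map (fun s : S => (s : Γ))).prod = (t ^ q)⁻¹ * 1
      rw [mul_one]
      exact hw0
    · exact hw1
  have hbe : ∀ a, be a ∈ H ∧ h (be a) = 0 ∧ β (be a) = cond a (β x1) 0 := by
    intro a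
    cases a
    · exact ⟨H.one_mem, h_one hC, β_one hC⟩
    · exact ⟨hx1, hh1, rfl⟩
  -- the representatives
  let gg : List Bool → Γ := fun u => u.rec 1 (fun a _ g => g * ((t ^ q)⁻¹ * be a))
  have hgg0 : gg [] = 1 := rfl
  have hgg1 : ∀ a u, gg (a :: u) = gg u * ((t ^ q)⁻¹ * be a) := fun a u => rfl
  have hvtx : ∀ x u, vtx mx (cl x) w u = cl (x * gg u) := by
    intro x u
    induction u with
    | nil =>
      change cl x = cl (x * 1)
      rw [mul_one]
    | cons a u ih =>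
      change run mx (vtx mx (cl x) w u) (w a) = _
      rw [ih, hgg1]
      unfold run
      rw [hfold, hw, mul_assoc]
  have hstep : ∀ a, (t ^ q)⁻¹ * be a ∈ H ∧ h ((t ^ q)⁻¹ * be a) = -(q : ℤ) ∧
      β ((t ^ q)⁻¹ * be a) = ν * cond a (β x1) 0 := by
    intro a
    obtain ⟨a1, a2, a3⟩ := hbe a
    refine ⟨H.mul_mem q1 a1, ?_, ?_⟩
    · rw [hC.h_mul _ q1 _ a1, q2, a2, add_zero]
    · rw [hC.β_mul _ q1 _ a1, q2, q3, a3, hν, zpow_neg, zpow_natCast, zero_add]
  have hggd : ∀ u, gg u ∈ H ∧ h (gg u) = -((q : ℤ) * u.length) := by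
    intro u
    induction u with
    | nil => exact ⟨H.one_mem, by rw [hgg0, h_one hC]; simp⟩
    | cons a u ih =>
      obtain ⟨a1, a2, -⟩ := hstep a
      refine ⟨H.mul_mem ih.1 a1, ?_⟩
      rw [hgg1, hC.h_mul _ ih.1 _ a1, ih.2, a2, List.length_cons]
      push_cast
      ring
  have hbb : ∀ a u, β (gg (a :: u)) = β (gg u) + ν ^ (u.length + 1) * cond a (β x1) 0 := by
    intro a u
    obtain ⟨a1, a2, a3⟩ := hstep a
    obtain ⟨b1, b2⟩ := hggd u
    have e : μ ^ (-((q : ℤ) * u.length)) = ν ^ u.length := by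
      rw [hν, zpow_neg, zpow_mul, zpow_natCast, zpow_natCast, inv_pow]
    rw [hgg1, hC.β_mul _ b1 _ a1, b2, a3, e, pow_succ]
    ring
  have hsep := tree_sep (bb := fun u => β (gg u)) hν4 hR1 hB hbb
  -- the separation of the trees
  have hdist : ∀ x ∈ H, ∀ x' ∈ H, h x = 0 → h x' = 0 → ‖β x‖ ≤ R1 → ‖β x'‖ ≤ R1 →
      ∀ u u' : List Bool, u.length = u'.length →
      vtx mx (cl x) w u = vtx mx (cl x') w u' → u = u' ∧ cl x = cl x' := by
    intro x hx x' hx' hhx hhx' hn hn' u u' hl heq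
    obtain ⟨b1, b2⟩ := hggd u
    obtain ⟨c1, c2⟩ := hggd u'
    rw [hvtx, hvtx, hcl' _ (H.mul_mem hx b1) _ (H.mul_mem hx' c1)] at heq
    obtain ⟨-, heq⟩ := heq
    rw [hC.β_mul _ hx _ b1, hC.β_mul _ hx' _ c1, hhx, hhx', zpow_zero, one_mul, one_mul] at heq
    have huu : u = u' := by
      by_contra hne
      have h5 := hsep u u' hl hne
      have h6 : β (gg u) - β (gg u') = β x' - β x := by linear_combination heq
      rw [h6] at h5
      have h7 := norm_sub_le (β x') (β x)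
      linarith
    subst huu
    refine ⟨rfl, (hcl' x hx x' hx').2 ⟨by rw [hhx, hhx'], ?_⟩⟩
    linear_combination heq
  obtain ⟨C, hC0, hCC⟩ := h1 (Quotient (QuotientGroup.rightRel (N0 hC))) S mx inv
    (by intro s; apply Subtype.ext; simp [inv])
    (by
      intro x s
      obtain ⟨g, rfl⟩ := hsurj x
      rw [hmx, hmx]
      simp [inv])
    w
  -- the values
  let V : AddSubgroup ℂ :=
    { carrier := {z | ∃ x ∈ H, h x = 0 ∧ β x = z}
      zero_mem' := ⟨1, H.one_mem, h_one hC, β_one hC⟩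
      add_mem' := by
        rintro _ _ ⟨x, hx, hhx, rfl⟩ ⟨y, hy, hhy, rfl⟩
        refine ⟨x * y, H.mul_mem hx hy, ?_, ?_⟩
        · rw [hC.h_mul x hx y hy, hhx, hhy, add_zero]
        · rw [hC.β_mul x hx y hy, hhx, zpow_zero, one_mul]
      neg_mem' := by
        rintro _ ⟨x, hx, hhx, rfl⟩
        refine ⟨x⁻¹, H.inv_mem hx, ?_, ?_⟩
        · rw [h_inv hC hx, hhx, neg_zero]
        · rw [β_inv hC hx, hhx, neg_zero, zpow_zero, one_mul] }
  have hV : ∀ a : Fin m → ℤ, ∃ x ∈ H, h x = 0 ∧ β x = ∑ i, (a i : ℂ) * lam i := by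
    intro a
    have : ∑ i, (a i : ℂ) * lam i ∈ V := by
      refine V.sum_mem fun i _ => ?_
      rw [← zsmul_eq_mul]
      exact V.zsmul_mem (hlam i) (a i)
    exact this
  let f : ℂ → Quotient (QuotientGroup.rightRel (N0 hC)) := fun z =>
    if hz : ∃ x ∈ H, h x = 0 ∧ β x = z then cl hz.choose else cl 1
  have hf : ∀ x ∈ H, h x = 0 → f (β x) = cl x := by
    intro x hx hhx
    have hz : ∃ y ∈ H, h y = 0 ∧ β y = β x := ⟨x, hx, hhx, rfl⟩
    have e : f (β x) = cl hz.choose := dif_pos hz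
    obtain ⟨a1, a2, a3⟩ := hz.choose_spec
    rw [e, hcl' _ a1 _ hx, a2, a3, hhx]
    exact ⟨rfl, rfl⟩
  obtain ⟨C', hC'⟩ := h3 m lam R1 hR1
  -- the bound for all n
  obtain ⟨p, hp⟩ : ∃ p : ℕ → ℝ, ∀ k, p k =
    (mlaw S {c | pos c k ∈ H ∧ h (pos c k) = 0 ∧ ‖β (pos c k)‖ ≤ R}).toReal := ⟨_, fun _ => rfl⟩
  have hpos : ∀ (x : Γ) (c : ℕ → S) (n : ℕ), pth mx (cl x) c n = cl (x * pos c n) := by
    intro x c n
    induction n with
    | zero =>
      change cl x = cl (x * 1)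
      rw [mul_one]
    | succ n ih =>
      change mx (pth mx (cl x) c n) (c n) = cl (x * (pth (mg S) 1 c n * (c n : Γ)))
      rw [ih, hmx, mul_assoc]
      rfl
  have hmain : ∀ n : ℕ, ∑ k ∈ Finset.range n, p k ≤ C * C' := by
    intro n
    -- the coefficients
    obtain ⟨ρ0, hρ0⟩ : ∃ ρ0 : ℕ, ∀ k < n, ∀ c : ℕ → S, pos c k ∈ H → h (pos c k) = 0 →
        ∃ a : Fin m → ℤ, (∀ i, |a i| ≤ (ρ0 : ℤ)) ∧ β (pos c k) = ∑ i, (a i : ℂ) * lam i := by
      let Nn : Γ → ℕ := fun g => if hg : g ∈ H ∧ h g = 0 then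
        ∑ i, ((hspan g hg.1 hg.2).choose i).natAbs else 0
      have hfin : (⋃ k ∈ Finset.range n, Set.range fun c : ℕ → S => pos c k).Finite :=
        Set.Finite.biUnion (Finset.finite_toSet _) (fun k _ => pos_finite k)
      obtain ⟨ρ0, hρ0⟩ := (hfin.image Nn).bddAbove
      refine ⟨ρ0, fun k hk c hc1 hc2 => ?_⟩
      have hle : Nn (pos c k) ≤ ρ0 := by
        apply hρ0
        refine ⟨pos c k, ?_, rfl⟩
        exact Set.mem_biUnion (Finset.mem_coe.2 (Finset.mem_range.2 hk)) ⟨c, rfl⟩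
      have e : Nn (pos c k) = ∑ i, ((hspan (pos c k) hc1 hc2).choose i).natAbs :=
        dif_pos ⟨hc1, hc2⟩
      refine ⟨(hspan (pos c k) hc1 hc2).choose, fun i => ?_, (hspan (pos c k) hc1 hc2).choose_spec⟩
      have h5 : ((hspan (pos c k) hc1 hc2).choose i).natAbs ≤
          ∑ i, ((hspan (pos c k) hc1 hc2).choose i).natAbs :=
        Finset.single_le_sum (f := fun i => ((hspan (pos c k) hc1 hc2).choose i).natAbs)
          (fun _ _ => Nat.zero_le _) (Finset.mem_univ i)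
      rw [Int.abs_eq_natAbs]
      exact_mod_cast h5.trans (e ▸ hle)
    obtain ⟨ρ, hρd⟩ : ∃ ρ : ℕ, ρ = max ρ0 1 := ⟨_, rfl⟩
    have hρ1 : 1 ≤ ρ := by rw [hρd]; exact le_max_right _ _
    have hρ0' : ρ0 ≤ ρ := by rw [hρd]; exact le_max_left _ _
    obtain ⟨hfin, hcard⟩ := hC' ρ hρ1
    have hsub : EE lam ρ (R1 / 2) ⊆ EE lam (2 * ρ) R1 := by
      rintro z ⟨hz1, a, ha, hz2⟩
      refine ⟨by linarith, a, fun i => (ha i).trans ?_, hz2⟩
      push_cast
      omega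
    have hfin' : (EE lam ρ (R1 / 2)).Finite := hfin.subset hsub
    obtain ⟨Z, hZ⟩ : ∃ Z, Z = hfin.toFinset.image f := ⟨_, rfl⟩
    obtain ⟨Z', hZ'⟩ : ∃ Z', Z' = hfin'.toFinset.image f := ⟨_, rfl⟩
    have hrep : ∀ ρ' R', ∀ z ∈ EE lam ρ' R', ∃ x ∈ H, h x = 0 ∧ β x = z ∧ f z = cl x := by
      rintro ρ' R' z ⟨-, a, -, hz⟩
      obtain ⟨x, hx, hhx, hβx⟩ := hV a
      refine ⟨x, hx, hhx, hβx.trans hz.symm, ?_⟩
      rw [hz, ← hβx]
      exact hf x hx hhx
    have hinj : Set.InjOn f (EE lam (2 * ρ) R1) := by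
      intro z hz z' hz' he
      obtain ⟨x, hx, hhx, rfl, e1⟩ := hrep _ _ z hz
      obtain ⟨x', hx', hhx', rfl, e2⟩ := hrep _ _ z' hz'
      rw [e1, e2, hcl' _ hx _ hx'] at he
      exact he.2
    have hcZ : Z.card = (EE lam (2 * ρ) R1).ncard := by
      rw [hZ, Finset.card_image_of_injOn (by rw [Set.Finite.coe_toFinset]; exact hinj),
        Set.ncard_eq_toFinset_card _ hfin]
    have hcZ' : Z'.card = (EE lam ρ (R1 / 2)).ncard := by
      rw [hZ', Finset.card_image_of_injOn (by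
        rw [Set.Finite.coe_toFinset]; exact hinj.mono hsub), Set.ncard_eq_toFinset_card _ hfin']
    have hZZ : Z' ⊆ Z := by
      rw [hZ, hZ']
      apply Finset.image_subset_image
      intro z hz
      rw [Set.Finite.mem_toFinset] at hz ⊢
      exact hsub hz
    have hpos' : 0 < Z'.card := by
      rw [Finset.card_pos, hZ', Finset.image_nonempty]
      refine ⟨0, ?_⟩
      rw [Set.Finite.mem_toFinset]
      refine ⟨by rw [norm_zero]; linarith, 0, fun i => by simp, by simp⟩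
    have hup := hCC Z (by
      intro z hz z' hz' u u' hl heq
      rw [hZ, Finset.mem_image] at hz hz'
      obtain ⟨ζ, hζ, rfl⟩ := hz
      obtain ⟨ζ', hζ', rfl⟩ := hz'
      rw [Set.Finite.mem_toFinset] at hζ hζ'
      obtain ⟨x, hx, hhx, hβx, e1⟩ := hrep _ _ ζ hζ
      obtain ⟨x', hx', hhx', hβx', e2⟩ := hrep _ _ ζ' hζ'
      rw [e1, e2] at heq ⊢
      exact hdist x hx x' hx' hhx hhx' (by rw [hβx]; exact hζ.1) (by rw [hβx']; exact hζ'.1)
        u u' hl heq) n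
    -- lower bound
    have hlow : ∀ z ∈ Z', ∑ k ∈ Finset.range n, p k ≤
        ∑ z' ∈ Z, ∑ k ∈ Finset.range n, qq mx z' k z := by
      intro z hz
      rw [hZ', Finset.mem_image] at hz
      obtain ⟨ζ, hζ, rfl⟩ := hz
      rw [Set.Finite.mem_toFinset] at hζ
      obtain ⟨x, hx, hhx, hβx, e1⟩ := hrep _ _ ζ hζ
      obtain ⟨hζ1, a, ha, hζ2⟩ := hζ
      rw [e1, Finset.sum_comm]
      refine Finset.sum_le_sum fun k hk => ?_
      rw [hp]
      apply ENNReal.toReal_le_of_le_ofReal (Finset.sum_nonneg fun z' _ => qq_nonneg mx _ _ _)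
      rw [ENNReal.ofReal_sum_of_nonneg (fun z' _ => qq_nonneg mx _ _ _)]
      have e3 : ∀ z' ∈ Z, ENNReal.ofReal (qq mx z' k (cl x)) =
          mlaw S {c | pth mx (cl x) c k = z'} := fun z' _ => (h2 _ S mx _ _ _).symm
      rw [Finset.sum_congr rfl e3]
      refine le_trans (measure_mono ?_) (measure_biUnion_finset_le _ _)
      rintro c ⟨hc1, hc2, hc3⟩
      rw [Set.mem_iUnion₂]
      refine ⟨cl (x * pos c k), ?_, hpos x c k⟩
      obtain ⟨a', ha', hβ'⟩ := hρ0 k (Finset.mem_range.1 hk) c hc1 hc2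
      have hval : β (x * pos c k) = ζ + β (pos c k) := by
        rw [hC.β_mul _ hx _ hc1, hhx, zpow_zero, one_mul, hβx]
      have hh : h (x * pos c k) = 0 := by
        rw [hC.h_mul _ hx _ hc1, hhx, hc2, add_zero]
      rw [hZ, Finset.mem_image]
      refine ⟨β (x * pos c k), ?_, hf _ (H.mul_mem hx hc1) hh⟩
      rw [Set.Finite.mem_toFinset]
      refine ⟨?_, fun i => a i + a' i, fun i => ?_, ?_⟩
      · rw [hval]
        have := norm_add_le ζ (β (pos c k))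
        linarith
      · have h5 := ha i
        have h6 := ha' i
        have h7 := abs_add_le (a i) (a' i)
        have h8 : (ρ0 : ℤ) ≤ ρ := by exact_mod_cast hρ0'
        push_cast
        omega
      · rw [hval, hζ2, hβ', ← Finset.sum_add_distrib]
        refine Finset.sum_congr rfl fun i _ => ?_
        push_cast
        ring
    have hsum : (Z'.card : ℝ) * ∑ k ∈ Finset.range n, p k ≤ C * Z.card := by
      calc (Z'.card : ℝ) * ∑ k ∈ Finset.range n, p k = ∑ z ∈ Z', ∑ k ∈ Finset.range n, p k := by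
            rw [Finset.sum_const, nsmul_eq_mul]
        _ ≤ ∑ z ∈ Z', ∑ z' ∈ Z, ∑ k ∈ Finset.range n, qq mx z' k z := Finset.sum_le_sum hlow
        _ ≤ ∑ z ∈ Z, ∑ z' ∈ Z, ∑ k ∈ Finset.range n, qq mx z' k z :=
            Finset.sum_le_sum_of_subset_of_nonneg hZZ fun z _ _ =>
              Finset.sum_nonneg fun z' _ => Finset.sum_nonneg fun k _ => qq_nonneg mx _ _ _
        _ ≤ C * Z.card := hup
    have hcard' : (Z.card : ℝ) ≤ C' * Z'.card := by
      rw [hcZ, hcZ']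
      exact_mod_cast hcard
    have hZp : (0 : ℝ) < Z'.card := by exact_mod_cast hpos'
    have h9 : (Z'.card : ℝ) * ∑ k ∈ Finset.range n, p k ≤ Z'.card * (C * C') := by
      calc _ ≤ C * Z.card := hsum
        _ ≤ C * (C' * Z'.card) := mul_le_mul_of_nonneg_left hcard' hC0
        _ = _ := by ring
    exact le_of_mul_le_mul_left h9 hZp
  apply ne_top_of_le_ne_top (ENNReal.ofReal_ne_top (r := C * C'))
  apply ENNReal.tsum_le_of_sum_range_le
  intro n
  have e4 : ∀ k ∈ Finset.range n,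
      mlaw S {c | pos c k ∈ H ∧ h (pos c k) = 0 ∧ (fun g => ‖β g‖) (pos c k) ≤ R} =
      ENNReal.ofReal (p k) := by
    intro k _
    rw [hp, ENNReal.ofReal_toReal (measure_ne_top _ _)]
  rw [Finset.sum_congr rfl e4, ← ENNReal.ofReal_sum_of_nonneg (fun k _ => by
    rw [hp]; exact ENNReal.toReal_nonneg)]
  exact ENNReal.ofReal_le_ofReal (hmain n)

end Pool.Agent.W2helper52.FDT
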